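import Mathlib
import Pool.Agent.Y526.Dom.Main
import Pool.Agent.Y526.Dom.Degrees

/-!
# Simultaneous domination of two graphs in which independent sets have many neighbours

Let `p / q ≤ 2 / 3`, and let `G₁` and `G₂` be graphs on the same `n` vertices in which every
independent set `J` has at least `(p / q) |J|` neighbours. This holds if both graphs have spanning
subgraphs with all degrees between `d > 0` and `q d / p`. Then some set of at most `q n / (p + q)`
vertices dominates both graphs.

For `p / q = 2 / 3` this is the bound `3 n / 5` (for example, if the largest degree of each graph is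
at most `3 / 2` times its smallest degree). The starting file `PieceFactors` has the bound `3 n / 5`
for two graphs each of which has a partition into paths on two or at least four vertices and
triangles, or satisfies Hall's condition; in all these graphs every independent set `J` has at least
`(2 / 3) |J|` neighbours, but not conversely (take the graph which arises from a cubic graph if every
edge is replaced by a path of length two).

Proof. A colouring of the vertices with two colours, in which every vertex has a neighbour of the
other colour in both graphs, would give a dominating set of at most `n / 2` vertices. The obstacles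
are odd cycles (of length at least five) of a permutation which moves along the edges and
`leaves` which belong to too few `hubs` (the Gallai-Edmonds type decomposition of `G` for
neighbourhoods). They are removed by a set `D` of vertices which is added to both colour classes;
that one small set `D` serves both graphs at the same time follows from Hall's theorem
(`Pool.Agent.Y526.Dom.Drop`).
-/

set_option autoImplicit false

namespace Pool.Agent.Results.MP_11624f_co.ExpandingFactors

/-- Every independent set `J` of `G` has at least `(p / q) |J|` neighbours. -/
def Expands {n : ℕ} (G : SimpleGraph (Fin n)) (p q : ℕ) : Prop :=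
  ∀ J : Finset (Fin n), (∀ u ∈ J, ∀ v ∈ J, ¬ G.Adj u v) →
    p * J.card ≤ q * {v | ∃ u ∈ J, G.Adj u v}.ncard

/-- `G` has a spanning subgraph all of whose degrees are between `d` and `e`, where `d > 0` and
`p e ≤ q d`. -/
def AlmostRegular {n : ℕ} (G : SimpleGraph (Fin n)) (p q : ℕ) : Prop :=
  ∃ H ≤ G, ∃ d e : ℕ, 0 < d ∧ p * e ≤ q * d ∧
    ∀ v, d ≤ {u | H.Adj v u}.ncard ∧ {u | H.Adj v u}.ncard ≤ e

theorem result (n p q : ℕ) (hq : 0 < q) (hpq : 3 * p ≤ 2 * q) (G₁ G₂ : SimpleGraph (Fin n))
    (h₁ : Expands G₁ p q ∨ AlmostRegular G₁ p q) (h₂ : Expands G₂ p q ∨ AlmostRegular G₂ p q) :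
    ∃ S : Finset (Fin n), (p + q) * S.card ≤ q * n ∧
      ∀ v, (v ∈ S ∨ ∃ u ∈ S, G₁.Adj v u) ∧ (v ∈ S ∨ ∃ u ∈ S, G₂.Adj v u) := by
  have h : ∀ G : SimpleGraph (Fin n), (Expands G p q ∨ AlmostRegular G p q) → Expands G p q := by
    rintro G (h | ⟨H, hH, d, e, hd, hde, hdeg⟩)
    · exact h
    · exact fun J _ => Pool.Agent.Y526.Dom.expands_of_degrees G H hH hd hde hdeg J
  obtain ⟨S, hS, hd⟩ := Pool.Agent.Y526.Dom.exists_simultaneous_dominating G₁ G₂ p q hq hpq
    (Pool.Agent.Y526.Dom.card_le_of_expands (h G₁ h₁))
    (Pool.Agent.Y526.Dom.card_le_of_expands (h G₂ h₂))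
  rw [Fintype.card_fin] at hS
  exact ⟨S, hS, hd⟩

end Pool.Agent.Results.MP_11624f_co.ExpandingFactors
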