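import Mathlib
import Pool.Agent.Y526.Dom.One
import Pool.Agent.Y526.Dom.Degrees

/-!
# Simultaneous domination of an arbitrary graph and an almost regular graph

Let `G₁` and `G₂` be graphs on the same `n` vertices. If `G₁` is any graph of minimum degree at least
two and every independent set `J` of `G₂` has at least `(4 / 5) |J|` neighbours (for example, `G₂` has
a spanning regular subgraph of positive degree, or all degrees of `G₂` are between `d > 0` and
`5 d / 4`), then some set of at most `3 n / 5` vertices dominates both graphs.

The starting file `PieceFactors` has this bound for two graphs each of which satisfies Hall's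
condition or has a partition into paths on two or at least four vertices and triangles.

Proof. (a) A colouring of the vertices with two colours, in which every vertex has a neighbour of the
other colour in both graphs, would give a dominating set of at most `n / 2` vertices. The obstacles
are odd cycles (of length at least five) of a permutation which moves along the edges and, if
independent sets have few neighbours, `leaves` which belong to few `hubs`. They are removed by a
set `D` of vertices which is added to both colour classes; that one set `D` of at most `n / 5`
vertices serves both graphs at the same time follows from Hall's theorem. (b) In an arbitrary graph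
of minimum degree two there are disjoint sets of leaves and hubs, such that every leaf belongs to
two hubs and every hub to at least two leaves, while the other vertices have a permutation as above.
We take a maximal set `W` of hubs to each of which four leaves can be attributed; every other
hub has at most three leaves without a hub in `W`. The vertices attributed to `W` cannot
contribute to `D` any more, but they are dominated by `W` in `G₁`, and so are free to serve `G₂`.
-/

set_option autoImplicit false

namespace Pool.Agent.Results.MP_11624f_co.OneArbitraryFactor

/-- Every independent set `J` of `G` has at least `(4 / 5) |J|` neighbours. -/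
def Expands {n : ℕ} (G : SimpleGraph (Fin n)) : Prop :=
  ∀ J : Finset (Fin n), (∀ u ∈ J, ∀ v ∈ J, ¬ G.Adj u v) →
    4 * J.card ≤ 5 * {v | ∃ u ∈ J, G.Adj u v}.ncard

/-- `G` has a spanning subgraph all of whose degrees are between `d` and `e`, where `d > 0` and
`4 e ≤ 5 d`. -/
def AlmostRegular {n : ℕ} (G : SimpleGraph (Fin n)) : Prop :=
  ∃ H ≤ G, ∃ d e : ℕ, 0 < d ∧ 4 * e ≤ 5 * d ∧
    ∀ v, d ≤ {u | H.Adj v u}.ncard ∧ {u | H.Adj v u}.ncard ≤ e

theorem result (n : ℕ) (G₁ G₂ : SimpleGraph (Fin n))
    (h₁ : ∀ v, ∃ a b, a ≠ b ∧ G₁.Adj v a ∧ G₁.Adj v b)
    (h₂ : Expands G₂ ∨ AlmostRegular G₂) :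
    ∃ S : Finset (Fin n), 5 * S.card ≤ 3 * n ∧
      ∀ v, (v ∈ S ∨ ∃ u ∈ S, G₁.Adj v u) ∧ (v ∈ S ∨ ∃ u ∈ S, G₂.Adj v u) := by
  have h : Expands G₂ := by
    rcases h₂ with h | ⟨H, hH, d, e, hd, hde, hdeg⟩
    · exact h
    · exact fun J _ => Pool.Agent.Y526.Dom.expands_of_degrees G₂ H hH hd hde hdeg J
  obtain ⟨S, hS, hd⟩ := Pool.Agent.Y526.Dom.exists_simultaneous_dominating_one G₁ G₂ h₁
    (Pool.Agent.Y526.Dom.card_le_of_expands h)
  rw [Fintype.card_fin] at hS
  exact ⟨S, hS, hd⟩

end Pool.Agent.Results.MP_11624f_co.OneArbitraryFactor
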